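import Pool.Agent.Helper80.RV.Defs

/-!
# RV6a-e (GJ): the local values of an ideal
-/

set_option autoImplicit false
set_option linter.unusedSectionVars false

namespace Pool.Agent.SQ.RV

open NumberField Filter Module MvPolynomial
open Pool.Agent.Helper64.Vojta (Pl nv sn above)
open Pool.Agent.V2
open Pool.Agent.Chart (fld dg crd hgt)

universe u

variable {k : Type u} [Field k] [NumberField k] {G : Type} [Group G] [Fintype G] {N e : ℕ}

private theorem one4 {L : Type u} [Field L] [Algebra k L] {s : G →* (L ≃ₐ[k] L)} {M : Pl k → L → ℝ} (hs : QSG s M)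
    (v : Pl k) : M v 1 = 1 := by
  have h2 := hs.mul v 1 1
  have h3 := hs.pos v 1 one_ne_zero
  rw [mul_one] at h2
  exact (mul_left_cancel₀ h3.ne' (by rw [mul_one]; exact h2)).symm

private theorem nn4 {L : Type u} [Field L] [Algebra k L] {s : G →* (L ≃ₐ[k] L)} {M : Pl k → L → ℝ} (hs : QSG s M)
    (v : Pl k) (z : L) : 0 ≤ M v z := by
  by_cases hz : z = 0
  · rw [hz, hs.zero]
  · exact (hs.pos v z hz).le

private theorem mx4 {L : Type u} [Field L] [Algebra k L] {s : G →* (L ≃ₐ[k] L)} {M : Pl k → L → ℝ} (hs : QSG s M)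
    (y : Fin (N + 1) → L) (hy : ∃ j, y j = 1) (v : Pl k) (g : G) : 1 ≤ mxn (M v) fun l => s g (y l) := by
  obtain ⟨j, hj⟩ := hy
  have h1 : M v (s g (y j)) = 1 := by rw [hj, map_one, one4 hs]
  rw [← h1]
  exact le_ciSup (f := fun l => M v (s g (y l))) (Set.finite_range _).bddAbove j

/-- the value of one form -/
private theorem val4 {L : Type u} [Field L] [Algebra k L] {s : G →* (L ≃ₐ[k] L)} {M : Pl k → L → ℝ} (hs : QSG s M)
    (y : Fin (N + 1) → L) (hy : ∃ j, y j = 1) (d : ℕ) (f : MvPolynomial (Fin (N + 1)) k) (v : Pl k) (g : G)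
    (hf : aeval y f ≠ 0) :
    0 < M v (s g (aeval y f)) / (mxn (M v) fun l => s g (y l)) ^ d ∧
    -Real.log (M v (s g (aeval y f)) / (mxn (M v) fun l => s g (y l)) ^ d) = gam s M y d f v g := by
  have h1 : 0 < mxn (M v) fun l => s g (y l) := one_pos.trans_le (mx4 hs y hy v g)
  have h2 : 0 < M v (s g (aeval y f)) := hs.pos v _ (by simpa using hf)
  refine ⟨div_pos h2 (pow_pos h1 d), ?_⟩
  rw [Real.log_div h2.ne' (pow_pos h1 d).ne', Real.log_pow]
  unfold gam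
  ring

/-- RV6a -/
theorem gamJ_le {L : Type u} [Field L] [Algebra k L] (s : G →* (L ≃ₐ[k] L)) (M : Pl k → L → ℝ) (hs : QSG s M)
    (y : Fin (N + 1) → L) (hy : ∃ j, y j = 1) (d : Fin e → ℕ) (f : Fin e → MvPolynomial (Fin (N + 1)) k) (v : Pl k) (g : G)
    (j : Fin e) (hj : aeval y (f j) ≠ 0) : gamJ s M y d f v g ≤ gam s M y (d j) (f j) v g := by
  obtain ⟨h1, h2⟩ := val4 hs y hy (d j) (f j) v g hj
  rw [← h2]
  unfold gamJ
  refine neg_le_neg (Real.log_le_log h1 ?_)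
  exact le_ciSup (f := fun j => M v (s g (aeval y (f j))) / (mxn (M v) fun l => s g (y l)) ^ d j)
    (Set.finite_range _).bddAbove j

/-- RV6b -/
theorem gamJ_ex {L : Type u} [Field L] [Algebra k L] (s : G →* (L ≃ₐ[k] L)) (M : Pl k → L → ℝ) (hs : QSG s M)
    (y : Fin (N + 1) → L) (hy : ∃ j, y j = 1) (d : Fin e → ℕ) (f : Fin e → MvPolynomial (Fin (N + 1)) k)
    (hf : ∃ j, aeval y (f j) ≠ 0) (v : Pl k) (g : G) :
    ∃ j, aeval y (f j) ≠ 0 ∧ gamJ s M y d f v g = gam s M y (d j) (f j) v g := by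
  obtain ⟨j₁, hj₁⟩ := hf
  have : Nonempty (Fin e) := ⟨j₁⟩
  obtain ⟨j₀, hj₀⟩ := exists_eq_ciSup_of_finite
    (f := fun j => M v (s g (aeval y (f j))) / (mxn (M v) fun l => s g (y l)) ^ d j)
  have h0 : aeval y (f j₀) ≠ 0 := by
    intro h0
    have h1 := (val4 hs y hy (d j₁) (f j₁) v g hj₁).1
    have h2 := le_ciSup (f := fun j => M v (s g (aeval y (f j))) / (mxn (M v) fun l => s g (y l)) ^ d j)
      (Set.finite_range _).bddAbove j₁
    rw [← hj₀] at h2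
    simp only [h0, map_zero, hs.zero, zero_div] at h2
    linarith
  refine ⟨j₀, h0, ?_⟩
  rw [← (val4 hs y hy (d j₀) (f j₀) v g h0).2]
  unfold gamJ
  rw [← hj₀]

/-- RV6c -/
theorem gamJ_ge (G : Type) [Group G] [Fintype G] (d : Fin e → ℕ) (f : Fin e → MvPolynomial (Fin (N + 1)) k) (hf : ∀ j, (f j).IsHomogeneous (d j))
    (S : Finset (Pl k)) : ∃ C : ℝ, 0 ≤ C ∧ ∀ (L : Type u) [Field L] [Algebra k L] (s : G →* (L ≃ₐ[k] L)) (M : Pl k → L → ℝ),
      QSG s M → ∀ (y : Fin (N + 1) → L), (∃ j, y j = 1) → (∃ j, aeval y (f j) ≠ 0) → ∀ v ∈ S, ∀ g, -C ≤ gamJ s M y d f v g := by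
  choose C hC0 hC using fun j => gam_ge G (f j) (hf j) S
  refine ⟨∑ j, C j, Finset.sum_nonneg fun j _ => hC0 j, ?_⟩
  intro L _ _ s M hs y hy hyf v hv g
  obtain ⟨j, hj, e⟩ := gamJ_ex s M hs y hy d f hyf v g
  rw [e]
  have h1 := hC j L s M hs y hj v hv g
  have h2 : C j ≤ ∑ j, C j := Finset.single_le_sum (f := C) (fun j _ => hC0 j) (Finset.mem_univ j)
  linarith

private theorem Hg4 {L : Type u} [Field L] [Algebra k L] {s : G →* (L ≃ₐ[k] L)} {M : Pl k → L → ℝ} (hs : QSG s M)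
    (y : Fin (N + 1) → L) (hy : ∃ j, y j = 1) : 0 ≤ Hg s M y :=
  gsum_nonneg (K := k) fun v => Finset.sum_nonneg fun g _ => Real.log_nonneg (mx4 hs y hy v g)

/-- RV6d -/
theorem gamJ_sum (G : Type) [Group G] [Fintype G] (d : Fin e → ℕ) (f : Fin e → MvPolynomial (Fin (N + 1)) k) (hf : ∀ j, (f j).IsHomogeneous (d j))
    (S : Finset (Pl k)) : ∃ C : ℝ, 0 ≤ C ∧ ∀ (L : Type u) [Field L] [Algebra k L] (s : G →* (L ≃ₐ[k] L)) (M : Pl k → L → ℝ),
      QSG s M → ∀ (y : Fin (N + 1) → L), (∃ j, y j = 1) → (∃ j, aeval y (f j) ≠ 0) →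
        ∑ v ∈ S, ∑ g, gamJ s M y d f v g ≤ (∑ j, d j : ℕ) * Hg s M y + C := by
  choose C hC using fun j => gam_sum G (f j) (hf j) S
  refine ⟨∑ j, |C j|, Finset.sum_nonneg fun j _ => abs_nonneg _, ?_⟩
  intro L _ _ s M hs y hy ⟨j, hj⟩
  have h1 : ∑ v ∈ S, ∑ g, gamJ s M y d f v g ≤ ∑ v ∈ S, ∑ g, gam s M y (d j) (f j) v g :=
    Finset.sum_le_sum fun v _ => Finset.sum_le_sum fun g _ => gamJ_le s M hs y hy d f v g j hj
  have h2 := hC j L s M hs y hy hj
  have h3 : |C j| ≤ ∑ j, |C j| :=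
    Finset.single_le_sum (f := fun j => |C j|) (fun j _ => abs_nonneg _) (Finset.mem_univ j)
  have h4 : d j ≤ ∑ j, d j := Finset.single_le_sum (f := d) (fun j _ => Nat.zero_le _) (Finset.mem_univ j)
  have h5 : (d j : ℝ) * Hg s M y ≤ ((∑ j, d j : ℕ) : ℝ) * Hg s M y :=
    mul_le_mul_of_nonneg_right (Nat.cast_le.2 h4) (Hg4 hs y hy)
  have h6 := le_abs_self (C j)
  linarith

/-- RV6e -/
theorem gamJ_cl {L : Type u} [Field L] [Algebra k L] {s : G →* (L ≃ₐ[k] L)} {M : Pl k → L → ℝ}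
    {y : Fin (N + 1) → L} {d : Fin e → ℕ} {f : Fin e → MvPolynomial (Fin (N + 1)) k} {v : Pl k} {Hs : Subgroup G}
    (hH : ∀ h ∈ Hs, ∀ j, s h (y j) = y j) {g g' : G} (hg : ∀ z, (∀ h ∈ Hs, s h z = z) → M v (s g z) = M v (s g' z)) :
    gamJ s M y d f v g = gamJ s M y d f v g' := by
  have h2 : ∀ j, ∀ h ∈ Hs, s h (aeval y (f j)) = aeval y (f j) := fun j h hh => by
    rw [aeval_s63]; simp only [hH h hh]
  have h4 : (mxn (M v) fun l => s g (y l)) = mxn (M v) fun l => s g' (y l) := by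
    unfold mxn
    exact iSup_congr fun l => hg _ fun h hh => hH h hh l
  unfold gamJ
  rw [h4]
  congr 2
  exact iSup_congr fun j => by rw [hg _ (h2 j)]

end Pool.Agent.SQ.RV
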